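import Pool.Agent.helper55.NK.Spec

set_option autoImplicit false

namespace Pool.Agent.helper40.NK

open Pool.Agent.NK Finset

lemma TWO_term (a b p q : ℕ) : a.choose p * b.choose q ≤ (a + b).choose (p + q) := by
  rw [Nat.add_choose_eq a b (p + q)]
  exact Finset.single_le_sum (f := fun ij : ℕ × ℕ => a.choose ij.1 * b.choose ij.2) (a := (p, q)) (fun _ _ => Nat.zero_le _)
    (Finset.HasAntidiagonal.mem_antidiagonal.mpr rfl)

lemma TWO_fin (N X S M c q r d : ℝ) (hX : X * r ≤ N) (hX0 : 0 ≤ X) (hqr : q ≤ r) (hS : S ≤ d * N) (hM : c * N ≤ M)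
    (hq : 0 < q) (hN : 0 ≤ N) (hc : 1 / q + d ≤ c) : X + S ≤ M := by
  have h1 : X * q ≤ N := le_trans (mul_le_mul_of_nonneg_left hqr hX0) hX
  have h2 : X ≤ 1 / q * N := by
    rw [one_div, inv_mul_eq_div, le_div_iff₀ hq]
    exact h1
  have h3 : (1 / q + d) * N ≤ c * N := mul_le_mul_of_nonneg_right hc hN
  have h4 : (1 / q + d) * N = 1 / q * N + d * N := by ring
  linarith

theorem TWO (hTOP : TOP_stmt) (hTAL : TAL_stmt) (hLOW : LOW_stmt) (hEXP : EXP_stmt) (hQNU : QNU_stmt) : TWO_stmt := by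
  intro a b i j D hi hj hn hch hD
  obtain ⟨w, hw, hX⟩ := hTOP a b i j hi hj (by omega)
  obtain ⟨hq7, hq6, hq5, hq4⟩ := hQNU i j w hi hj hw
  have hlow := hLOW (a + b) (i + j) (by omega) (by omega)
  have hX0 : (0 : ℝ) ≤ (a.choose i : ℝ) * (b.choose j : ℝ) := by positivity
  have hN0 : (0 : ℝ) ≤ ((a + b).choose (i + j) : ℝ) := by positivity
  have hsum : ∑ c ∈ D, a.choose c.1 * b.choose c.2 ≤ ∑ c ∈ D, (a + b).choose (c.1 + c.2) :=
    Finset.sum_le_sum fun c _ => TWO_term a b c.1 c.2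
  have htal : 72 * ∑ c ∈ D, (a + b).choose (c.1 + c.2) ≤ (a + b).choose (i + j) := by
    refine hTAL (a + b) (i + j) D hn ?_ ?_
    · intro c hc
      obtain ⟨_, _, h3, h4⟩ := hD c hc
      omega
    · intro c hc d hd hcd
      by_contra hne
      rcases hch c hc d hd hne with h | h
      · omega
      · omega
  have hS72 : ((∑ c ∈ D, a.choose c.1 * b.choose c.2 : ℕ) : ℝ) ≤ 1 / 72 * ((a + b).choose (i + j) : ℝ) := by
    have h1 : 72 * ∑ c ∈ D, a.choose c.1 * b.choose c.2 ≤ (a + b).choose (i + j) :=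
      le_trans (Nat.mul_le_mul_left 72 hsum) htal
    have h2 : (72 : ℝ) * ((∑ c ∈ D, a.choose c.1 * b.choose c.2 : ℕ) : ℝ) ≤ ((a + b).choose (i + j) : ℝ) := by
      exact_mod_cast h1
    linarith
  have key : ((a.choose i : ℝ) * (b.choose j : ℝ)) + ((∑ c ∈ D, a.choose c.1 * b.choose c.2 : ℕ) : ℝ) ≤
      (MV (a + b) (i + j) : ℝ) := by
    rcases (show 7 ≤ i + j ∨ i + j = 6 ∨ i + j = 5 ∨ i + j = 4 by omega) with h | h | h | h
    · refine TWO_fin _ _ _ _ 0.3678 2.826 _ (1 / 72) hX hX0 (hq7 h) hS72 ?_ (by norm_num) hN0 (by norm_num)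
      exact le_trans (mul_le_mul_of_nonneg_right (hEXP (i + j) (by omega)) hN0) hlow
    · refine TWO_fin _ _ _ _ ((5 / 6 : ℝ) ^ 5) 2.6 _ (1 / 72) hX hX0 (hq6 h) hS72 ?_ (by norm_num) hN0 (by norm_num)
      have h1 : (1 - 1 / ((i + j : ℕ) : ℝ)) ^ (i + j - 1) = (5 / 6 : ℝ) ^ 5 := by
        rw [h]; norm_num
      rw [← h1]
      exact hlow
    · refine TWO_fin _ _ _ _ ((4 / 5 : ℝ) ^ 4) 2.55 _ (1 / 72) hX hX0 (hq5 h) hS72 ?_ (by norm_num) hN0 (by norm_num)
      have h1 : (1 - 1 / ((i + j : ℕ) : ℝ)) ^ (i + j - 1) = (4 / 5 : ℝ) ^ 4 := by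
        rw [h]; norm_num
      rw [← h1]
      exact hlow
    · have hS4 : ((∑ c ∈ D, a.choose c.1 * b.choose c.2 : ℕ) : ℝ) ≤ 12 / 1406 * ((a + b).choose (i + j) : ℝ) := by
        have hsub : D ⊆ {((1 : ℕ), (1 : ℕ))} := by
          intro c hc
          obtain ⟨h1, h2, h3, h4⟩ := hD c hc
          rw [Finset.mem_singleton]
          exact Prod.ext (by simp; omega) (by simp; omega)
        have h5 : ∑ c ∈ D, (a + b).choose (c.1 + c.2) ≤ (a + b).choose 2 := by
          refine le_trans (Finset.sum_le_sum_of_subset hsub) ?_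
          simp
        have e1 : (a + b).choose 3 * 3 = (a + b).choose 2 * (a + b - 2) := by
          have := Nat.choose_succ_right_eq (a + b) 2
          simpa using this
        have e2 : (a + b).choose 4 * 4 = (a + b).choose 3 * (a + b - 3) := by
          have := Nat.choose_succ_right_eq (a + b) 3
          simpa using this
        have h6 : (a + b).choose 2 * 1406 ≤ (a + b).choose 4 * 12 := by
          have g1 : 38 ≤ a + b - 2 := by omega
          have g2 : 37 ≤ a + b - 3 := by omega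
          have g3 : (a + b).choose 4 * 12 = (a + b).choose 2 * ((a + b - 2) * (a + b - 3)) := by
            calc (a + b).choose 4 * 12 = (a + b).choose 4 * 4 * 3 := by ring
              _ = (a + b).choose 3 * 3 * (a + b - 3) := by rw [e2]; ring
              _ = (a + b).choose 2 * ((a + b - 2) * (a + b - 3)) := by rw [e1]; ring
          rw [g3]
          refine Nat.mul_le_mul_left _ ?_
          calc 1406 = 38 * 37 := by norm_num
            _ ≤ (a + b - 2) * (a + b - 3) := Nat.mul_le_mul g1 g2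
        have h7 : (∑ c ∈ D, a.choose c.1 * b.choose c.2) * 1406 ≤ (a + b).choose (i + j) * 12 := by
          rw [h]
          exact le_trans (Nat.mul_le_mul_right 1406 (le_trans hsum h5)) h6
        have h8 : ((∑ c ∈ D, a.choose c.1 * b.choose c.2 : ℕ) : ℝ) * 1406 ≤ ((a + b).choose (i + j) : ℝ) * 12 := by
          exact_mod_cast h7
        linarith
      refine TWO_fin _ _ _ _ ((3 / 4 : ℝ) ^ 3) 2.43 _ (12 / 1406) hX hX0 (hq4 h) hS4 ?_ (by norm_num) hN0 (by norm_num)
      have h1 : (1 - 1 / ((i + j : ℕ) : ℝ)) ^ (i + j - 1) = (3 / 4 : ℝ) ^ 3 := by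
        rw [h]; norm_num
      rw [← h1]
      exact hlow
  have key2 : ((a.choose i * b.choose j + ∑ c ∈ D, a.choose c.1 * b.choose c.2 : ℕ) : ℝ) ≤ (MV (a + b) (i + j) : ℝ) := by
    push_cast
    push_cast at key
    exact key
  exact_mod_cast key2

end Pool.Agent.helper40.NK
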